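import Pool.Agent.MP_2da4e2_lc.Hard

/-!
Minimum-cost binary decision trees (uniform weights, unit costs) are NP-hard to approximate within
every constant factor; if P ≠ NP, then some approximation ratio that tends to infinity with the
number of items is not achieved by any polynomial-time algorithm.
-/

namespace Pool.Agent.Results.MP_2da4e2_lc.NoConstantFactor

open Filter Pool.Agent.MP_2da4e2_lc

/-- **Result.** DT is NP-hard to approximate within every constant factor. If P ≠ NP, then no
polynomial-time algorithm has a constant approximation ratio, and moreover there is a monotone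
function `α ≥ 1` tending to infinity such that every polynomial-time algorithm that outputs decision
trees has a ratio larger than `α(n)` on instances with arbitrarily many items `n`. -/
theorem result : (∀ t : ℕ, NPHardWithin t) ∧
    (PNeNP → (∀ c : ℝ, ¬ ∃ A : Inst → Tree, PolyTime A ∧ Approximates (fun _ => c) A) ∧
      ∃ α : ℕ → ℝ, Monotone α ∧ (∀ n, 1 ≤ α n) ∧ Tendsto α atTop atTop ∧
        ∀ A : Inst → Tree, PolyTime A → (∀ I : Inst, IsTree I.m I.X (A I)) → ∀ N : ℕ,
          ∃ I : Inst, N ≤ I.X.length ∧ ∃ T, IsTree I.m I.X T ∧
            α I.X.length * cost I.X T < cost I.X (A I)) := by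
  refine ⟨np_hard, fun h => ⟨?_, no_slow2 h⟩⟩
  rintro c ⟨A, hA, happ⟩
  exact no_constant h c A hA happ

end Pool.Agent.Results.MP_2da4e2_lc.NoConstantFactor
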